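import Pool.Agent.TCR.Defs

/-!
# Countable and small sets of ordinals
-/

namespace Pool.Agent.TCR

open Set Cardinal Ordinal

theorem countable_bound {S : Set Ordinal.{0}} (hS : S.Countable) (h : ∀ x ∈ S, x < ω_ 1) :
    ∃ b < ω_ 1, ∀ x ∈ S, x ≤ b := by
  have : Countable S := hS
  refine ⟨⨆ x : S, x.1, Ordinal.iSup_lt_omega_one (fun x => h x.1 x.2), fun x hx => ?_⟩
  exact le_ciSup (f := fun x : S => x.1) Ordinal.bddAbove_of_small ⟨x, hx⟩

theorem card_le_aleph0 {o : Ordinal.{0}} (h : o < ω_ 1) : o.card ≤ ℵ₀ := by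
  have h1 : o.card < ℵ_ 1 := lt_omega_iff_card_lt.1 h
  rw [← succ_aleph0] at h1
  exact Order.lt_succ_iff.1 h1

theorem countable_Iio {o : Ordinal.{0}} (h : o < ω_ 1) : (Set.Iio o).Countable := by
  rw [← le_aleph0_iff_set_countable, Cardinal.mk_Iio_ordinal]
  have := card_le_aleph0 h
  rw [← Cardinal.lift_aleph0.{1, 0}, Cardinal.lift_le]
  exact this

theorem countable_Iic {o : Ordinal.{0}} (h : o < ω_ 1) : (Set.Iic o).Countable := by
  have : Set.Iic o = insert o (Set.Iio o) := by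
    ext x
    simp [le_iff_eq_or_lt]
  rw [this]
  exact (countable_Iio h).insert o

theorem succ_lt_omega1 {o : Ordinal.{0}} (h : o < ω_ 1) : Order.succ o < ω_ 1 :=
  (isSuccLimit_omega 1).succ_lt h

theorem zero_lt_omega1 : (0 : Ordinal.{0}) < ω_ 1 := omega_pos 1

theorem not_countable_Iio_omega1 : ¬ (Set.Iio (ω_ 1 : Ordinal.{0})).Countable := by
  intro h
  obtain ⟨b, hb, hb'⟩ := countable_bound h (fun x hx => hx)
  exact absurd (hb' _ (succ_lt_omega1 hb)) (not_le.2 (Order.lt_succ b))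

theorem cof_omega2 : (ω_ 2 : Ordinal.{1}).cof = ℵ_ 2 := by
  have := cof_omega_add_one (1 : Ordinal.{1})
  rwa [one_add_one_eq_two] at this

/-- A set of ordinals below `ω₂` which is mapped injectively into `ω₁` is bounded. -/
theorem small_bound {S : Set Ordinal.{0}} (h : ∀ x ∈ S, x < ω_ 2) (e : Ordinal.{0} → Ordinal.{0})
    (he : ∀ x ∈ S, e x < ω_ 1) (hi : Set.InjOn e S) : ∃ b < ω_ 2, ∀ x ∈ S, x ≤ b := by
  have hsm : Small.{0} S := small_of_injective (β := Set.Iio (ω_ 2 : Ordinal.{0}))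
    (f := fun x => ⟨x.1, h x.1 x.2⟩) (by
      intro x y hxy
      have := congrArg Subtype.val hxy
      exact Subtype.ext this)
  have hc : #S ≤ ℵ_ 1 := by
    have h1 : #S ≤ #(Set.Iio (ω_ 1 : Ordinal.{0})) := by
      refine Cardinal.mk_le_of_injective (f := fun x : S => ⟨e x.1, he x.1 x.2⟩) ?_
      intro x y hxy
      have := congrArg Subtype.val hxy
      exact Subtype.ext (hi x.2 y.2 this)
    refine h1.trans ?_
    rw [Cardinal.mk_Iio_ordinal, card_omega, lift_aleph]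
    simp
  refine ⟨sSup S, ?_, fun x hx => le_csSup Ordinal.bddAbove_of_small hx⟩
  refine Ordinal.sSup_lt_of_lt_cof ?_ h
  have h2 : Ordinal.lift.{1} (ω_ 2 : Ordinal.{0}) = ω_ 2 := by
    simp
  rw [h2, cof_omega2]
  refine hc.trans_lt ?_
  exact aleph_lt_aleph.2 one_lt_two

end Pool.Agent.TCR
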