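import Mathlib

/-!
# Definitions: square at omega_1, the dominating number is aleph_1, Luzin sets

Everything here is standard; it is used in the hand-in for `MP_8b2697_lc`.
-/

namespace Pool.Agent.TCR

open Set Cardinal Ordinal

/-- `g` is a limit point of the set `S` of ordinals: `g` is not `0` and `S` is cofinal below
`g`.  (Such a `g` is a limit ordinal.) -/
def LimPt (S : Set Ordinal.{0}) (g : Ordinal.{0}) : Prop :=
  g ≠ 0 ∧ ∀ a < g, ∃ x ∈ S, a < x ∧ x < g

/-- Jensen's square principle at `ω₁`: there are sets `C β` (`β < ω₂` a limit ordinal) such that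
`C β` is a closed unbounded subset of `β`, of order type at most `ω₁` (that is, every proper
initial segment `C β ∩ a`, `a < β`, is countable), and coherent: `C g = C β ∩ g` whenever
`g < β` is a limit point of `C β`. -/
def SquareOmega1 : Prop :=
  ∃ C : Ordinal.{0} → Set Ordinal.{0}, ∀ β : Ordinal.{0}, β < ω_ 2 → Order.IsSuccLimit β →
    (∀ x ∈ C β, x < β) ∧
    (∀ a < β, ∃ x ∈ C β, a < x) ∧
    (∀ g < β, LimPt (C β) g → g ∈ C β) ∧
    (∀ a < β, {x : Ordinal.{0} | x ∈ C β ∧ x < a}.Countable) ∧
    (∀ g < β, LimPt (C β) g → C g = {x : Ordinal.{0} | x ∈ C β ∧ x < g})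

/-- The dominating number is `ℵ₁` (at most `ℵ₁`, which is the same): some family of at most
`ℵ₁` functions `ℕ → ℕ` dominates every function `ℕ → ℕ` at all but finitely many places. -/
def DomAlephOne : Prop :=
  ∃ D : Set (ℕ → ℕ), #D ≤ ℵ₁ ∧ ∀ h : ℕ → ℕ, ∃ d ∈ D, ∃ N : ℕ, ∀ n ≥ N, h n ≤ d n

/-- There is a Luzin set in the Baire space `ℕ → ℕ` (product topology): an uncountable set with
countable intersection with every meagre set. -/
def LuzinSetExists : Prop :=
  ∃ L : Set (ℕ → ℕ), ¬ L.Countable ∧ ∀ M : Set (ℕ → ℕ), IsMeagre M → (L ∩ M).Countable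

/-- The arrow `X → [ℵ₁]²_K` for a set of reals `X` and a set of colours `K`: for every colouring
`f` of the pairs of reals by elements of `K` (a symmetric function; its values on the diagonal
play no role) there are an uncountable set `A ⊆ X` and a colour `c` which `f` does not take on
the pairs of different elements of `A`. -/
def Arrow (X : Set ℝ) (K : Type) : Prop :=
  ∀ f : ℝ → ℝ → K, (∀ x y, f x y = f y x) →
    ∃ A : Set ℝ, A ⊆ X ∧ ¬ A.Countable ∧ ∃ c : K, ∀ x ∈ A, ∀ y ∈ A, x ≠ y → f x y ≠ c

end Pool.Agent.TCR
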