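import Pool.Agent.TCR.Basic

/-!
# The functions `F ν`
-/

namespace Pool.Agent.TCR

open Set Cardinal Ordinal

/-- The ordinal of an element of the type `ω₁`. -/
noncomputable def tord (x : (ω_ 1 : Ordinal.{0}).ToType) : Ordinal.{0} :=
  (Ordinal.ToType.mk.symm x).1

theorem tord_lt (x : (ω_ 1 : Ordinal.{0}).ToType) : tord x < ω_ 1 :=
  (Ordinal.ToType.mk.symm x).2

theorem tord_inj {x y : (ω_ 1 : Ordinal.{0}).ToType} (h : tord x = tord y) : x = y :=
  Ordinal.ToType.mk.symm.injective (Subtype.ext h)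

theorem tord_surj {ν : Ordinal.{0}} (h : ν < ω_ 1) : ∃ x, tord x = ν := by
  refine ⟨Ordinal.ToType.mk ⟨ν, h⟩, ?_⟩
  unfold tord
  rw [OrderIso.symm_apply_apply]

theorem enum_of_card_le {α : Type} [Nonempty α] (h : #α ≤ ℵ₁) :
    ∃ f : Ordinal.{0} → α, ∀ a : α, ∃ ν < ω_ 1, f ν = a := by
  have h1 : #α ≤ #((ω_ 1 : Ordinal.{0}).ToType) := by
    rw [Cardinal.mk_toType, card_omega]
    exact h
  obtain ⟨e⟩ := h1
  classical
  refine ⟨fun ν => if hν : ∃ a : α, tord (e a) = ν then hν.choose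
    else Classical.arbitrary α, fun a => ?_⟩
  refine ⟨tord (e a), tord_lt _, ?_⟩
  have hν : ∃ b : α, tord (e b) = tord (e a) := ⟨a, rfl⟩
  simp only
  rw [dif_pos hν]
  exact e.injective (tord_inj hν.choose_spec)

theorem inj_of_not_countable {α : Type} {L : Set α} (h : ¬ L.Countable) :
    ∃ f : Ordinal.{0} → α, (∀ ν, f ν ∈ L) ∧ Set.InjOn f (Set.Iio (ω_ 1)) := by
  have h1 : #((ω_ 1 : Ordinal.{0}).ToType) ≤ #L := by
    rw [Cardinal.mk_toType, card_omega, ← succ_aleph0]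
    rw [Order.succ_le_iff]
    rw [← le_aleph0_iff_set_countable] at h
    exact not_le.1 h
  obtain ⟨e⟩ := h1
  have hne : L.Nonempty := by
    by_contra hcon
    rw [Set.not_nonempty_iff_eq_empty] at hcon
    exact h (hcon ▸ Set.countable_empty)
  obtain ⟨x0, hx0⟩ := hne
  classical
  refine ⟨fun ν => if hν : ν < ω_ 1 then (e (tord_surj hν).choose).1 else x0, fun ν => ?_, ?_⟩
  · simp only
    split_ifs with hν
    · exact (e _).2
    · exact hx0
  · intro a ha b hb hab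
    simp only [Set.mem_Iio] at ha hb
    simp only [dif_pos ha, dif_pos hb] at hab
    have h2 := e.injective (Subtype.ext hab)
    rw [← (tord_surj ha).choose_spec, ← (tord_surj hb).choose_spec, h2]

/-- Every countable ordinal is the range of a sequence. -/
theorem exists_seq : ∃ s : Ordinal.{0} → ℕ → Ordinal.{0},
    (∀ ν < ω_ 1, ∀ j, s ν j < ω_ 1) ∧ ∀ ν < ω_ 1, ∀ z < ν, ∃ j, s ν j = z := by
  have key : ∀ ν : Ordinal.{0}, ∃ t : ℕ → Ordinal.{0},
      ν < ω_ 1 → (∀ j, t j < ω_ 1) ∧ ∀ z < ν, ∃ j, t j = z := by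
    intro ν
    by_cases hν : ν < ω_ 1
    · rcases eq_or_ne ν 0 with rfl | h0
      · exact ⟨fun _ => 0, fun _ => ⟨fun _ => zero_lt_omega1,
          fun z hz => absurd hz (not_lt.2 zero_le)⟩⟩
      · have hne : (Set.Iio ν).Nonempty := ⟨0, pos_iff_ne_zero.2 h0⟩
        obtain ⟨t, ht⟩ := (countable_Iio hν).exists_eq_range hne
        refine ⟨t, fun _ => ⟨fun j => ?_, fun z hz => ?_⟩⟩
        · have : t j ∈ Set.Iio ν := ht ▸ Set.mem_range_self j
          exact lt_trans this hν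
        · have : z ∈ Set.range t := ht ▸ hz
          exact this
    · exact ⟨fun _ => 0, fun h => absurd h hν⟩
  choose s hs using key
  exact ⟨s, fun ν hν => (hs ν hν).1, fun ν hν => (hs ν hν).2⟩

/-- Long runs of every value, for all but countably many members of the family. -/
def Runs (g : Ordinal.{0} → ℕ → ℕ) : Prop :=
  ∀ (h : ℕ → ℕ) (i : ℕ),
    {ν : Ordinal.{0} | ν < ω_ 1 ∧ ¬ ∃ n, ∀ k, n ≤ k → k ≤ h n → g ν k = i}.Countable

/-- The index of the block of `m` for the block boundaries `p`. -/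
def blk (p : ℕ → ℕ) (m : ℕ) : ℕ := Nat.findGreatest (fun k => p k ≤ m) m

theorem block_index {p : ℕ → ℕ} (hp : StrictMono p) {m k : ℕ} (h1 : p k ≤ m)
    (h2 : m < p (k + 1)) : blk p m = k := by
  unfold blk
  rw [Nat.findGreatest_eq_iff]
  refine ⟨(hp.le_apply).trans h1, fun _ => h1, fun j hj _ hj' => ?_⟩
  exact absurd (hj'.trans_lt h2) (not_lt.2 (hp.monotone hj))

theorem runs_of_dom (h : DomAlephOne) : ∃ g, Runs g := by
  obtain ⟨D, hD, hdom⟩ := h
  have hne : Nonempty D := by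
    obtain ⟨d, hd, _⟩ := hdom (fun _ => 0)
    exact ⟨⟨d, hd⟩⟩
  obtain ⟨d, hd⟩ := enum_of_card_le hD
  obtain ⟨s, hs1, hs2⟩ := exists_seq
  -- the function dominating the first `ν` members
  let φ : Ordinal.{0} → ℕ → ℕ := fun ν n => (Finset.range (n + 1)).sup (fun j => (d (s ν j)).1 n)
  have hφ : ∀ ν n j, j ≤ n → (d (s ν j)).1 n ≤ φ ν n := by
    intro ν n j hj
    exact Finset.le_sup (f := fun j => (d (s ν j)).1 n) (Finset.mem_range.2 (Nat.lt_succ_of_le hj))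
  let p : Ordinal.{0} → ℕ → ℕ :=
    fun ν k => Nat.rec (motive := fun _ => ℕ) 0 (fun _ q => φ ν q + q + 1) k
  have hp : ∀ ν, StrictMono (p ν) := by
    intro ν
    refine strictMono_nat_of_lt_succ (fun k => ?_)
    show p ν k < φ ν (p ν k) + p ν k + 1
    omega
  refine ⟨fun ν m => (Nat.unpair (blk (p ν) m)).1, fun f i => ?_⟩
  obtain ⟨d0, hd0, N, hN⟩ := hdom f
  obtain ⟨z, hz, hz'⟩ := hd ⟨d0, hd0⟩
  refine (countable_Iic hz).mono ?_
  rintro ν ⟨hν, hν'⟩
  by_contra hcon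
  simp only [Set.mem_Iic, not_le] at hcon
  refine hν' ?_
  obtain ⟨j, hj⟩ := hs2 ν hν z hcon
  set k := Nat.pair i (max N j) with hk
  have hk1 : max N j ≤ k := Nat.right_le_pair _ _
  have hk2 : k ≤ p ν k := (hp ν).le_apply
  refine ⟨p ν k, fun m hm1 hm2 => ?_⟩
  have h1 : f (p ν k) ≤ φ ν (p ν k) := by
    refine (hN _ ?_).trans ?_
    · exact (le_max_left N j).trans (hk1.trans hk2)
    · have h2 := hφ ν (p ν k) j ((le_max_right N j).trans (hk1.trans hk2))
      rw [hj, hz'] at h2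
      exact h2
  have h3 : m < p ν (k + 1) := by
    show m < φ ν (p ν k) + p ν k + 1
    omega
  simp only
  rw [block_index (hp ν) hm1 h3, hk, Nat.unpair_pair]

theorem runs_of_luzin (h : LuzinSetExists) : ∃ g, Runs g := by
  obtain ⟨Lz, hL, hM⟩ := h
  obtain ⟨g, hg1, hg2⟩ := inj_of_not_countable hL
  refine ⟨g, fun f i => ?_⟩
  set U : Set (ℕ → ℕ) := {x | ∃ n, ∀ k, n ≤ k → k ≤ f n → x k = i} with hU
  have hopen : IsOpen U := by
    have : U = ⋃ n, ⋂ k ∈ Set.Icc n (f n), {x : ℕ → ℕ | x k = i} := by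
      ext x
      simp [hU]
    rw [this]
    refine isOpen_iUnion (fun n => ?_)
    refine Set.Finite.isOpen_biInter (Set.finite_Icc n (f n)) (fun k _ => ?_)
    exact (isOpen_discrete ({i} : Set ℕ)).preimage (continuous_apply (A := fun _ => ℕ) k)
  have hdense : Dense U := by
    rw [dense_iff_inter_open]
    rintro V hV ⟨x, hx⟩
    obtain ⟨I, u, h1, h2⟩ := isOpen_pi_iff.1 hV x hx
    classical
    set n := I.sup id + 1 with hn
    refine ⟨fun k => if k < n then x k else i, ?_, ?_⟩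
    · refine h2 ?_
      intro k hk
      have hkn : k < n := Nat.lt_succ_of_le (Finset.le_sup (f := id) (Finset.mem_coe.1 hk))
      simp only [if_pos hkn]
      exact (h1 k (Finset.mem_coe.1 hk)).2
    · refine ⟨n, fun k hk _ => ?_⟩
      simp only [if_neg (not_lt.2 hk)]
  have hmeag : IsMeagre Uᶜ := by
    unfold IsMeagre
    rw [compl_compl]
    exact residual_of_dense_open hopen hdense
  have hc := hM _ hmeag
  refine Set.MapsTo.countable_of_injOn (f := g) (t := Lz ∩ Uᶜ) ?_ ?_ hc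
  · rintro ν ⟨_, h2⟩
    exact ⟨hg1 ν, h2⟩
  · exact hg2.mono (fun ν hν => hν.1)

/-- The final family: colours are countable ordinals. -/
theorem exists_fam (h : DomAlephOne ∨ LuzinSetExists) :
    ∃ F : Ordinal.{0} → ℕ → Ordinal.{0}, (∀ ν < ω_ 1, ∀ k, F ν k < ω_ 1) ∧
      ∀ (h : ℕ → ℕ), ∀ z < ω_ 1, ∃ ν0 < ω_ 1, ∀ ν, ν0 ≤ ν → ν < ω_ 1 →
        ∃ n, ∀ k, n ≤ k → k ≤ h n → F ν k = z := by
  obtain ⟨g, hg⟩ : ∃ g, Runs g := h.elim runs_of_dom runs_of_luzin
  obtain ⟨s, hs1, hs2⟩ := exists_seq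
  refine ⟨fun ν k => s ν (g ν k), fun ν hν k => hs1 ν hν _, fun f z hz => ?_⟩
  have hcnt : (Set.Iic z ∪ ⋃ i : ℕ,
      {ν : Ordinal.{0} | ν < ω_ 1 ∧ ¬ ∃ n, ∀ k, n ≤ k → k ≤ f n → g ν k = i}).Countable :=
    (countable_Iic hz).union (Set.countable_iUnion (fun i => hg f i))
  obtain ⟨b, hb, hb'⟩ := countable_bound hcnt (by
    rintro x (hx | hx)
    · exact lt_of_le_of_lt hx hz
    · simp only [Set.mem_iUnion] at hx
      obtain ⟨i, hx⟩ := hx
      exact hx.1)
  refine ⟨Order.succ b, succ_lt_omega1 hb, fun ν hν1 hν2 => ?_⟩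
  have hnot : ν ∉ (Set.Iic z ∪ ⋃ i : ℕ,
      {ν : Ordinal.{0} | ν < ω_ 1 ∧ ¬ ∃ n, ∀ k, n ≤ k → k ≤ f n → g ν k = i}) := by
    intro hmem
    have := hb' ν hmem
    exact absurd (Order.succ_le_iff.1 hν1) (not_lt.2 this)
  simp only [Set.mem_union, Set.mem_iUnion, not_or, not_exists] at hnot
  obtain ⟨h1, h2⟩ := hnot
  have h1' : z < ν := not_le.1 h1
  obtain ⟨j, hj⟩ := hs2 ν hν2 z h1'
  have h3 := h2 j
  by_contra hcon
  refine h3 ⟨hν2, ?_⟩
  rintro n hn
  exact hcon ⟨n, fun k hk1 hk2 => by simp only; rw [hn k hk1 hk2, hj]⟩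

end Pool.Agent.TCR
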