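import Pool.Agent.TCR.Main
import Pool.Agent.TCR.Fam

/-!
# The colouring of pairs of reals
-/

namespace Pool.Agent.TCR

open Set Cardinal Ordinal

/-- Every set of at most `ℵ₂` reals is enumerated injectively by ordinals below `ω₂`. -/
theorem exists_code {X : Set ℝ} (hX : #X ≤ ℵ_ 2) :
    ∃ e : ℝ → Ordinal.{0}, (∀ x ∈ X, e x < ω_ 2) ∧ Set.InjOn e X := by
  have h1 : #X ≤ #((ω_ 2 : Ordinal.{0}).ToType) := by
    rw [Cardinal.mk_toType, card_omega]
    exact hX
  obtain ⟨i⟩ := h1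
  classical
  refine ⟨fun x => if hx : x ∈ X then (Ordinal.ToType.mk.symm (i ⟨x, hx⟩)).1 else 0,
    fun x hx => ?_, fun x hx y hy hxy => ?_⟩
  · simp only [dif_pos hx]
    exact (Ordinal.ToType.mk.symm (i ⟨x, hx⟩)).2
  · simp only [dif_pos hx, dif_pos hy] at hxy
    have h2 := i.injective (Ordinal.ToType.mk.symm.injective (Subtype.ext hxy))
    exact congrArg Subtype.val h2

theorem exists_real_code : ∃ c : ℝ → ℕ → Bool, Function.Injective c := by
  have h1 : #ℝ ≤ #(ℕ → Bool) := by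
    rw [Cardinal.mk_real]
    simp
  obtain ⟨i⟩ := h1
  exact ⟨i, i.injective⟩

/-- The colouring, for a set of at most `ℵ₂` reals and at most `ℵ₁` colours. -/
theorem exists_colouring (hsq : SquareOmega1) (h : DomAlephOne ∨ LuzinSetExists)
    {X : Set ℝ} (hX : #X ≤ ℵ_ 2) {K : Type} [Nonempty K] (hK : #K ≤ ℵ₁) :
    ∃ f : ℝ → ℝ → K, (∀ x y, f x y = f y x) ∧
      ∀ A : Set ℝ, A ⊆ X → ¬ A.Countable → ∀ c : K, ∃ x ∈ A, ∃ y ∈ A, x ≠ y ∧ f x y = c := by
  obtain ⟨L, hL⟩ := exists_ladder hsq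
  obtain ⟨F, hF1, hF⟩ := exists_fam h
  obtain ⟨e, he1, he2⟩ := exists_code hX
  obtain ⟨c, hc⟩ := exists_real_code
  obtain ⟨q, hq⟩ := enum_of_card_le hK
  classical
  let dl : ℝ → ℝ → ℕ := fun x y => sInf {m | c x m ≠ c y m}
  have hdl : ∀ x y, dl x y = dl y x := by
    intro x y
    have : {m | c x m ≠ c y m} = {m | c y m ≠ c x m} := by
      ext m
      exact ne_comm
    show sInf _ = sInf _
    rw [this]
  refine ⟨fun x y => q (F (rho L (max (e x) (e y)) (min (e x) (e y))) (dl x y)),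
    fun x y => ?_, fun A hAX hA k => ?_⟩
  · simp only
    rw [max_comm, min_comm, hdl]
  · obtain ⟨z, hz, hqz⟩ := hq k
    let inv : Ordinal.{0} → ℝ := Function.invFunOn e A
    have hinv : ∀ x ∈ A, inv (e x) = x := by
      intro x hx
      have h1 : ∃ y ∈ A, e y = e x := ⟨x, hx, rfl⟩
      have h2 : inv (e x) ∈ A := Function.invFunOn_mem h1
      have h3 : e (inv (e x)) = e x := Function.invFunOn_eq h1
      exact he2 (hAX h2) (hAX hx) h3
    have hA' : ¬ (e '' A).Countable := by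
      intro h1
      refine hA ?_
      have h2 : (inv '' (e '' A)).Countable := h1.image inv
      refine h2.mono (fun x hx => ?_)
      exact ⟨e x, ⟨x, hx, rfl⟩, hinv x hx⟩
    have hr : Set.InjOn (fun α => c (inv α)) (e '' A) := by
      rintro _ ⟨x, hx, rfl⟩ _ ⟨y, hy, rfl⟩ hxy
      simp only [hinv x hx, hinv y hy] at hxy
      rw [hc hxy]
    have hlt : ∀ a ∈ e '' A, a < ω_ 2 := by
      rintro _ ⟨x, hx, rfl⟩
      exact he1 x (hAX hx)
    obtain ⟨_, ⟨x, hx, rfl⟩, _, ⟨y, hy, rfl⟩, hxy, m, hm1, hm2, hm3⟩ :=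
      main_comb hL hF hlt hA' hr hz
    simp only [hinv x hx, hinv y hy] at hm1 hm2
    refine ⟨x, hx, y, hy, ?_, ?_⟩
    · rintro rfl
      exact lt_irrefl _ hxy
    · have hm : dl x y = m := by
        refine le_antisymm (Nat.sInf_le hm2) ?_
        refine le_csInf ⟨m, hm2⟩ (fun j hj => ?_)
        by_contra hcon
        exact hj (hm1 j (not_le.1 hcon))
      simp only
      rw [max_eq_right hxy.le, min_eq_left hxy.le, hm, hm3, hqz]

end Pool.Agent.TCR
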