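import Pool.Agent.TCR.Basic

/-!
# The order type of an initial segment
-/

namespace Pool.Agent.TCR

open Set Cardinal Ordinal

/-- The order type of `S ∩ a`. -/
noncomputable def idx (S : Set Ordinal.{0}) : Ordinal.{0} → Ordinal.{0} :=
  WellFounded.fix (C := fun _ => Ordinal.{0}) Ordinal.lt_wf
    (fun a ih => sSup (Set.range
      (fun x : {x : Ordinal.{0} // x < a ∧ x ∈ S} => Order.succ (ih x.1 x.2.1))))

theorem idx_eq (S : Set Ordinal.{0}) (a : Ordinal.{0}) :
    idx S a = sSup (Set.range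
      (fun x : {x : Ordinal.{0} // x < a ∧ x ∈ S} => Order.succ (idx S x.1))) := by
  unfold idx
  rw [WellFounded.fix_eq]

theorem small_sub (S : Set Ordinal.{0}) (a : Ordinal.{0}) :
    Small.{0} {x : Ordinal.{0} // x < a ∧ x ∈ S} :=
  small_of_injective (β := Set.Iio a) (f := fun x => ⟨x.1, x.2.1⟩) (by
    intro x y h
    have := congrArg Subtype.val h
    exact Subtype.ext this)

theorem idx_lt {S : Set Ordinal.{0}} {x a : Ordinal.{0}} (hx : x ∈ S) (h : x < a) :
    idx S x < idx S a := by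
  have := small_sub S a
  rw [idx_eq S a]
  refine lt_of_lt_of_le (Order.lt_succ (idx S x)) ?_
  refine le_csSup Ordinal.bddAbove_of_small ?_
  exact ⟨⟨x, h, hx⟩, rfl⟩

theorem idx_lt_omega {S : Set Ordinal.{0}} {a : Ordinal.{0}}
    (h : {x : Ordinal.{0} | x ∈ S ∧ x < a}.Countable) : idx S a < ω_ 1 := by
  induction a using WellFoundedLT.induction with
  | _ a ih =>
    rw [idx_eq S a]
    have hc : Countable {x : Ordinal.{0} // x < a ∧ x ∈ S} := by
      have : {x : Ordinal.{0} | x < a ∧ x ∈ S}.Countable := by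
        refine h.mono ?_
        rintro x ⟨h1, h2⟩
        exact ⟨h2, h1⟩
      exact this
    refine Ordinal.iSup_lt_omega_one (fun x => succ_lt_omega1 (ih x.1 x.2.1 ?_))
    refine h.mono ?_
    rintro y ⟨h1, h2⟩
    exact ⟨h1, h2.trans x.2.1⟩

theorem idx_congr {S T : Set Ordinal.{0}} {a : Ordinal.{0}}
    (h : ∀ x < a, (x ∈ S ↔ x ∈ T)) : idx S a = idx T a := by
  induction a using WellFoundedLT.induction with
  | _ a ih =>
    rw [idx_eq S a, idx_eq T a]
    congr 1
    ext y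
    constructor
    · rintro ⟨⟨x, h1, h2⟩, rfl⟩
      refine ⟨⟨x, h1, (h x h1).1 h2⟩, ?_⟩
      simp only
      rw [ih x h1 (fun z hz => h z (hz.trans h1))]
    · rintro ⟨⟨x, h1, h2⟩, rfl⟩
      refine ⟨⟨x, h1, (h x h1).2 h2⟩, ?_⟩
      simp only
      rw [ih x h1 (fun z hz => h z (hz.trans h1))]

theorem idx_injOn (S : Set Ordinal.{0}) : Set.InjOn (idx S) S := by
  intro x hx y hy hxy
  rcases lt_trichotomy x y with h | h | h
  · exact absurd (idx_lt hx h) (by rw [hxy]; exact lt_irrefl _)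
  · exact h
  · exact absurd (idx_lt hy h) (by rw [hxy]; exact lt_irrefl _)

/-- Countably many elements of `S` have index at most `ν < ω₁`. -/
theorem idx_countable {S : Set Ordinal.{0}} {ν : Ordinal.{0}} (hν : ν < ω_ 1) :
    {x : Ordinal.{0} | x ∈ S ∧ idx S x ≤ ν}.Countable := by
  refine Set.MapsTo.countable_of_injOn (f := idx S) (t := Set.Iic ν) ?_ ?_ (countable_Iic hν)
  · rintro x ⟨_, hx⟩
    exact hx
  · exact (idx_injOn S).mono (fun x hx => hx.1)

/-- Two elements with the same initial segments have the same index. -/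
theorem idx_eq_of {S : Set Ordinal.{0}} {a b : Ordinal.{0}} (hab : a ≤ b)
    (h : ∀ x ∈ S, x < b → x < a) : idx S a = idx S b := by
  rw [idx_eq S a, idx_eq S b]
  congr 1
  ext y
  constructor
  · rintro ⟨⟨x, h1, h2⟩, rfl⟩
    exact ⟨⟨x, h1.trans_le hab, h2⟩, rfl⟩
  · rintro ⟨⟨x, h1, h2⟩, rfl⟩
    exact ⟨⟨x, h x h2 h1, h2⟩, rfl⟩

end Pool.Agent.TCR
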