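import Pool.Agent.TCR.Basic

/-!
# Uncountable sets of reals: splitting levels
-/

namespace Pool.Agent.TCR

open Set Cardinal Ordinal

/-- Finite binary sequences. -/
abbrev Node : Type := Σ n : ℕ, (Fin n → Bool)

variable {X : Type*}

/-- The elements of `A` whose real extends `p`. -/
def cyl (A : Set X) (r : X → ℕ → Bool) (p : Node) : Set X :=
  {a | a ∈ A ∧ ∀ k : Fin p.1, r a k = p.2 k}

/-- The elements of `A` whose real agrees with `x` below `n`. -/
def Nd (A : Set X) (r : X → ℕ → Bool) (x : ℕ → Bool) (n : ℕ) : Set X :=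
  {a | a ∈ A ∧ ∀ k < n, r a k = x k}

/-- The elements of `A` whose real differs from `x` for the first time at `m`. -/
def Flip (A : Set X) (r : X → ℕ → Bool) (x : ℕ → Bool) (m : ℕ) : Set X :=
  {a | a ∈ A ∧ (∀ k < m, r a k = x k) ∧ r a m ≠ x m}

theorem Nd_eq_cyl (A : Set X) (r : X → ℕ → Bool) (x : ℕ → Bool) (n : ℕ) :
    Nd A r x n = cyl A r ⟨n, fun k => x k⟩ := by
  ext a
  constructor
  · rintro ⟨h1, h2⟩
    exact ⟨h1, fun k => h2 k k.2⟩
  · rintro ⟨h1, h2⟩
    exact ⟨h1, fun k hk => h2 ⟨k, hk⟩⟩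

theorem Flip_eq_cyl (A : Set X) (r : X → ℕ → Bool) (x : ℕ → Bool) (m : ℕ) :
    Flip A r x m = cyl A r ⟨m + 1, fun k => if (k : ℕ) < m then x k else !(x m)⟩ := by
  ext a
  constructor
  · rintro ⟨h1, h2, h3⟩
    refine ⟨h1, fun k => ?_⟩
    simp only
    split_ifs with hk
    · exact h2 k hk
    · have hkm : (k : ℕ) = m := by
        have := k.2
        simp only at this
        omega
      rw [hkm]
      cases hr : r a m <;> cases hx : x m <;> simp_all
  · rintro ⟨h1, h2⟩
    refine ⟨h1, fun k hk => ?_, ?_⟩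
    · have := h2 ⟨k, by simp only; omega⟩
      simp only [if_pos hk] at this
      exact this
    · have := h2 ⟨m, by simp only; omega⟩
      simp only [lt_irrefl, if_false] at this
      rw [this]
      cases x m <;> simp

/-- Prune the countable nodes. -/
theorem exists_pruned {A : Set X} (r : X → ℕ → Bool) :
    ∃ B ⊆ A, (A \ B).Countable ∧ ∀ a ∈ B, ∀ n, ¬ (Nd B r (r a) n).Countable := by
  classical
  set B : Set X := {a | a ∈ A ∧ ∀ n, ¬ (Nd A r (r a) n).Countable} with hB
  have hAB : (A \ B).Countable := by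
    have hsub : A \ B ⊆ ⋃ p : Node, (if (cyl A r p).Countable then cyl A r p else ∅) := by
      rintro a ⟨ha, ha'⟩
      simp only [hB, Set.mem_ofPred_eq, not_and, not_forall, not_not] at ha'
      obtain ⟨n, hn⟩ := ha' ha
      rw [Nd_eq_cyl] at hn
      refine Set.mem_iUnion.2 ⟨⟨n, fun k => r a k⟩, ?_⟩
      rw [if_pos hn]
      exact ⟨ha, fun k => rfl⟩
    refine Set.Countable.mono hsub (Set.countable_iUnion (fun p => ?_))
    split_ifs with h
    · exact h
    · exact Set.countable_empty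
  refine ⟨B, fun a ha => ha.1, hAB, fun a ha n hc => ?_⟩
  refine ha.2 n ?_
  refine (hc.union hAB).mono ?_
  rintro b ⟨h1, h2⟩
  by_cases hb : b ∈ B
  · exact Or.inl ⟨hb, h2⟩
  · exact Or.inr ⟨h1, hb⟩

theorem exists_flip {B : Set X} {r : X → ℕ → Bool} (hr : Set.InjOn r B)
    (hB : ∀ a ∈ B, ∀ n, ¬ (Nd B r (r a) n).Countable) {a : X} (ha : a ∈ B) (n : ℕ) :
    ∃ m, n ≤ m ∧ ¬ (Flip B r (r a) m).Countable := by
  by_contra hcon
  push Not at hcon
  refine hB a ha n ?_
  have hsub : Nd B r (r a) n ⊆ {a} ∪ ⋃ m ∈ {m : ℕ | n ≤ m}, Flip B r (r a) m := by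
    rintro b ⟨h1, h2⟩
    by_cases hba : b = a
    · exact Or.inl hba
    · refine Or.inr ?_
      have hne : r b ≠ r a := fun h => hba (hr h1 ha h)
      have hex : ∃ m, r b m ≠ r a m := Function.ne_iff.1 hne
      classical
      refine Set.mem_biUnion (x := Nat.find hex) ?_ ⟨h1, fun k hk => ?_, Nat.find_spec hex⟩
      · by_contra h3
        exact Nat.find_spec hex (h2 _ (not_le.1 h3))
      · have := Nat.find_min hex hk
        exact not_not.1 this
  refine Set.Countable.mono hsub ((Set.countable_singleton a).union ?_)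
  exact Set.Countable.biUnion (Set.to_countable _) (fun m hm => hcon m hm)

theorem flip_transfer {B : Set X} {r : X → ℕ → Bool}
    (hB : ∀ a ∈ B, ∀ n, ¬ (Nd B r (r a) n).Countable) {a b : X} (ha : a ∈ B) (hb : b ∈ B)
    {n m : ℕ} (hab : ∀ k < n, r b k = r a k) (_hnm : n ≤ m)
    (hm : ¬ (Flip B r (r a) m).Countable)
    (hmin : ∀ j, n ≤ j → j < m → (Flip B r (r a) j).Countable) :
    ¬ (Flip B r (r b) m).Countable := by
  have hag : ∀ k, k ≤ m → ∀ j < k, r b j = r a j := by
    intro k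
    induction k with
    | zero => intro _ j hj; omega
    | succ k ih =>
      intro hk j hj
      have ih' := ih (by omega)
      rcases Nat.lt_succ_iff_lt_or_eq.1 hj with h1 | rfl
      · exact ih' j h1
      · by_cases hjn : j < n
        · exact hab j hjn
        · by_contra hne
          refine hB b hb (j + 1) ?_
          refine (hmin j (not_lt.1 hjn) (by omega)).mono ?_
          rintro c ⟨h1, h2⟩
          refine ⟨h1, fun i hi => ?_, ?_⟩
          · rw [h2 i (by omega), ih' i hi]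
          · rw [h2 j (by omega)]
            exact hne
  have hag' := hag m le_rfl
  by_cases hbm : r b m = r a m
  · intro hc
    refine hm (hc.mono ?_)
    rintro c ⟨h1, h2, h3⟩
    exact ⟨h1, fun k hk => by rw [h2 k hk, hag' k hk], by rw [hbm]; exact h3⟩
  · intro hc
    refine hB a ha (m + 1) (hc.mono ?_)
    rintro c ⟨h1, h2⟩
    refine ⟨h1, fun k hk => ?_, ?_⟩
    · rw [h2 k (by omega), hag' k hk]
    · rw [h2 m (by omega)]
      exact fun h => hbm h.symm

/-- A uniform bound for the splitting levels. -/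
theorem exists_bound {B : Set X} {r : X → ℕ → Bool} (hr : Set.InjOn r B)
    (hB : ∀ a ∈ B, ∀ n, ¬ (Nd B r (r a) n).Countable) :
    ∃ h : ℕ → ℕ, ∀ a ∈ B, ∀ n, ∃ m, n ≤ m ∧ m ≤ h n ∧ ¬ (Flip B r (r a) m).Countable := by
  classical
  have key : ∀ n : ℕ, ∃ N : ℕ, ∀ a ∈ B, ∃ m, n ≤ m ∧ m ≤ N ∧
      ¬ (Flip B r (r a) m).Countable := by
    intro n
    have h1 : ∀ s : Fin n → Bool, ∃ N : ℕ, ∀ b ∈ B, (∀ k : Fin n, r b k = s k) →
        ∃ m, n ≤ m ∧ m ≤ N ∧ ¬ (Flip B r (r b) m).Countable := by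
      intro s
      by_cases hs : ∃ a ∈ B, ∀ k : Fin n, r a k = s k
      · obtain ⟨a, ha, has⟩ := hs
        have hex := exists_flip hr hB ha n
        refine ⟨Nat.find hex, fun b hb hbs => ?_⟩
        refine ⟨Nat.find hex, (Nat.find_spec hex).1, le_rfl, ?_⟩
        refine flip_transfer hB ha hb (n := n) ?_ (Nat.find_spec hex).1 (Nat.find_spec hex).2 ?_
        · intro k hk
          rw [hbs ⟨k, hk⟩, has ⟨k, hk⟩]
        · intro j hj1 hj2
          have := Nat.find_min hex hj2
          push Not at this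
          exact this hj1
      · refine ⟨0, fun b hb hbs => ?_⟩
        exact absurd ⟨b, hb, hbs⟩ hs
    choose N hN using h1
    refine ⟨Finset.univ.sup N, fun a ha => ?_⟩
    obtain ⟨m, h2, h3, h4⟩ := hN (fun k => r a k) a ha (fun k => rfl)
    exact ⟨m, h2, h3.trans (Finset.le_sup (Finset.mem_univ _)), h4⟩
  choose h hh using key
  exact ⟨h, fun a ha n => hh n a ha⟩

end Pool.Agent.TCR
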