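import Pool.Agent.TCR.Rho
import Pool.Agent.TCR.Tree

/-!
# The combinatorial theorem on `ω₂`
-/

namespace Pool.Agent.TCR

open Set Cardinal Ordinal

/-- An uncountable set of ordinals below `ω₂` has an uncountable initial segment of type `ω₁`,
bounded below `ω₂`. -/
theorem exists_cut {A : Set Ordinal.{0}} (hA : ∀ a ∈ A, a < ω_ 2) (hunc : ¬ A.Countable) :
    ∃ d < ω_ 2, ¬ {x : Ordinal.{0} | x ∈ A ∧ x < d}.Countable ∧
      ∀ e < d, {x : Ordinal.{0} | x ∈ A ∧ x < e}.Countable := by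
  have hne : {d : Ordinal.{0} | ¬ {x : Ordinal.{0} | x ∈ A ∧ x < d}.Countable}.Nonempty := by
    refine ⟨ω_ 2, ?_⟩
    intro h
    have hsub : A ⊆ {x : Ordinal.{0} | x ∈ A ∧ x < ω_ 2} := fun a ha => ⟨ha, hA a ha⟩
    exact hunc (Set.Countable.mono hsub h)
  set d := sInf {d : Ordinal.{0} | ¬ {x : Ordinal.{0} | x ∈ A ∧ x < d}.Countable} with hd
  have h1 : ¬ {x : Ordinal.{0} | x ∈ A ∧ x < d}.Countable := csInf_mem hne
  have h2 : ∀ e < d, {x : Ordinal.{0} | x ∈ A ∧ x < e}.Countable := by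
    intro e he
    by_contra hcon
    exact absurd he (not_lt.2 (csInf_le' hcon))
  refine ⟨d, ?_, h1, h2⟩
  by_contra hcon
  have h3 : ∀ e < ω_ 2, {x : Ordinal.{0} | x ∈ A ∧ x < e}.Countable :=
    fun e he => h2 e (he.trans_le (not_lt.1 hcon))
  obtain ⟨b, hb, hb'⟩ := small_bound (S := A) hA (idx A)
    (fun x hx => idx_lt_omega (h3 x (hA x hx))) (idx_injOn A)
  refine hunc ((h3 (Order.succ b) ((isSuccLimit_omega 2).succ_lt hb)).mono (fun a ha => ?_))
  exact ⟨ha, Order.lt_succ_of_le (hb' a ha)⟩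

theorem main_comb {L : Ordinal.{0} → Set Ordinal.{0}} (hL : Ladder L)
    {F : Ordinal.{0} → ℕ → Ordinal.{0}}
    (hF : ∀ (h : ℕ → ℕ), ∀ z < ω_ 1, ∃ ν0 < ω_ 1, ∀ ν, ν0 ≤ ν → ν < ω_ 1 →
        ∃ n, ∀ k, n ≤ k → k ≤ h n → F ν k = z)
    {A : Set Ordinal.{0}} (hA : ∀ a ∈ A, a < ω_ 2) (hunc : ¬ A.Countable)
    {r : Ordinal.{0} → ℕ → Bool} (hr : Set.InjOn r A) {z : Ordinal.{0}} (hz : z < ω_ 1) :
    ∃ a ∈ A, ∃ b ∈ A, a < b ∧ ∃ m, (∀ k < m, r a k = r b k) ∧ r a m ≠ r b m ∧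
      F (rho L b a) m = z := by
  classical
  obtain ⟨d, hd, hAd, hAe⟩ := exists_cut hA hunc
  obtain ⟨B, hBA, hAB, hB⟩ := exists_pruned (A := {x : Ordinal.{0} | x ∈ A ∧ x < d}) r
  have hBd : ∀ b ∈ B, b < d := fun b hb => (hBA hb).2
  have hBA' : ∀ b ∈ B, b ∈ A := fun b hb => (hBA hb).1
  have hBunc : ¬ B.Countable := by
    intro h
    refine hAd ((h.union hAB).mono (fun x hx => ?_))
    by_cases hxB : x ∈ B
    · exact Or.inl hxB
    · exact Or.inr ⟨hx, hxB⟩
  have hBe : ∀ e < d, {x : Ordinal.{0} | x ∈ B ∧ x ≤ e}.Countable := by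
    intro e he
    refine (((hAe e he)).union (Set.countable_singleton e)).mono ?_
    rintro x ⟨h1, h2⟩
    rcases eq_or_lt_of_le h2 with h3 | h3
    · exact Or.inr h3
    · exact Or.inl ⟨hBA' x h1, h3⟩
  have hunb : ∀ U ⊆ B, ¬ U.Countable → ∀ e < d, ∃ b ∈ U, e < b := by
    intro U hU hUc e he
    by_contra hcon
    push Not at hcon
    have hsub : U ⊆ {x : Ordinal.{0} | x ∈ B ∧ x ≤ e} := fun x hx => ⟨hU hx, hcon x hx⟩
    exact hUc (Set.Countable.mono hsub (hBe e he))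
  have hdlim : Order.IsSuccLimit d := by
    rcases Ordinal.zero_or_succ_or_isSuccLimit d with h | ⟨x, h⟩ | h
    · obtain ⟨b, hb⟩ : B.Nonempty := by
        by_contra hcon
        rw [Set.not_nonempty_iff_eq_empty] at hcon
        exact hBunc (hcon ▸ Set.countable_empty)
      exact absurd (hBd b hb) (by rw [h]; exact not_lt.2 zero_le)
    · have hxd : x < d := h ▸ Order.lt_succ x
      obtain ⟨b, hb, hxb⟩ := hunb B (fun _ h => h) hBunc x hxd
      have h4 : b < Order.succ x := by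
        have h5 := hBd b hb
        rw [← h] at h5
        exact h5
      exact absurd (Order.lt_succ_iff.1 h4) (not_le.2 hxb)
    · exact h
  have hcof : ∀ S : Set Ordinal.{0}, S.Countable → (∀ x ∈ S, x < d) →
      ∃ e < d, ∀ x ∈ S, x < e := by
    intro S hS hSd
    by_contra hcon
    push Not at hcon
    have hcov : B ⊆ ⋃ x ∈ S, {y : Ordinal.{0} | y ∈ B ∧ y ≤ x} := by
      intro b hb
      obtain ⟨x, hx, hx'⟩ := hcon b (hBd b hb)
      exact Set.mem_biUnion hx ⟨hb, hx'⟩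
    exact hBunc (Set.Countable.mono hcov (hS.biUnion (fun x hx => hBe x (hSd x hx))))
  obtain ⟨h, hh⟩ := exists_bound (hr.mono hBA') hB
  obtain ⟨ν0, hν0, hFz⟩ := hF h z hz
  let LK : Ordinal.{0} → Ordinal.{0} → Ordinal.{0} → Ordinal.{0} → Prop := fun g b l k =>
    l < g ∧ k < ω_ 1 ∧ ∀ a, l < a → a < g → rho L b a = max k (rho L d a)
  let GG : Ordinal.{0} → Prop := fun g => g < d ∧ LimPt (L d) g ∧
    ∀ p : Node, ¬ (cyl B r p).Countable → ∀ a < g, ∃ x ∈ cyl B r p, a < x ∧ x < g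
  have hLK : ∀ g, GG g → ∀ b, g ≤ b → b < d → ∃ l k, LK g b l k := by
    intro g hg b hgb hb
    obtain ⟨l, hl, k, hk, hlk⟩ := rho_local hL hd hg.1 hg.2.1 (hb.trans hd) hgb
    exact ⟨l, k, hl, hk, hlk⟩
  have hcylB : ∀ p, cyl B r p ⊆ B := fun p x hx => hx.1
  by_cases hcase : ∃ g, GG g ∧ ∃ b ∈ B, g ≤ b ∧ ∃ l k, LK g b l k ∧
      (∀ a ∈ B, a < g → rho L d a ≤ k) ∧ ν0 ≤ k
  · -- Case 1
    obtain ⟨g, hg, b, hb, hgb, l, k, ⟨hl, hk, hlk⟩, hmax, hνk⟩ := hcase
    obtain ⟨n, hn⟩ := hFz k hνk hk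
    obtain ⟨m, hm1, hm2, hm3⟩ := hh b hb n
    rw [Flip_eq_cyl] at hm3
    obtain ⟨a, ha, hla, hag⟩ := hg.2.2 _ hm3 l hl
    rw [← Flip_eq_cyl] at ha
    obtain ⟨haB, ha1, ha2⟩ := ha
    refine ⟨a, hBA' a haB, b, hBA' b hb, hag.trans_le hgb, m, ha1, ha2, ?_⟩
    rw [hlk a hla hag, max_eq_left (hmax a haB hag)]
    exact hn m hm1 hm2
  · -- Case 2
    push Not at hcase
    have hcase2 : ∀ g, GG g → ∀ b ∈ B, g ≤ b → ∀ l k, LK g b l k →
        (∃ a ∈ B, a < g ∧ k < rho L d a) ∨ k < ν0 := by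
      intro g hg b hb hgb l k hlk
      by_cases h1 : ∀ a ∈ B, a < g → rho L d a ≤ k
      · exact Or.inr (hcase g hg b hb hgb l k hlk h1)
      · push Not at h1
        exact Or.inl h1
    have claim : ∀ p : Node, ¬ (cyl B r p).Countable → ∃ κ < ω_ 1, ∃ e < d, ∀ c < d,
        ∃ g, GG g ∧ c < g ∧ ∃ b ∈ cyl B r p, g ≤ b ∧ ∃ l k, LK g b l k ∧ k ≤ κ ∧ l ≤ e := by
      intro p hp
      by_contra hcon
      push Not at hcon
      have hBd' : ∀ κ e : Ordinal.{0}, ∃ c < d, κ < ω_ 1 → e < d → ∀ g, GG g → c < g →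
          ∀ b ∈ cyl B r p, g ≤ b → ∀ l k, LK g b l k → k ≤ κ → e < l := by
        intro κ e
        by_cases hκ : κ < ω_ 1 ∧ e < d
        · obtain ⟨c, hc, hc'⟩ := hcon κ hκ.1 e hκ.2
          exact ⟨c, hc, fun _ _ => hc'⟩
        · refine ⟨0, hdlim.bot_lt, fun h1 h2 => absurd ⟨h1, h2⟩ hκ⟩
      choose Bd hBd1 hBd2 using hBd'
      have hstep : ∀ y : Ordinal.{0}, ∃ δ : Ordinal.{0}, y < d → δ < d ∧ y < δ ∧
          (∃ x ∈ L d, y < x ∧ x < δ) ∧
          (∀ q : Node, ¬ (cyl B r q).Countable → ∃ x ∈ cyl B r q, y < x ∧ x < δ) ∧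
          (∀ a ∈ B, a ≤ y → ∀ e ∈ B, e ≤ y → Bd (rho L d a) e < δ) := by
        intro y
        by_cases hy : y < d
        · obtain ⟨x0, hx0, hx0'⟩ := hL.lim d hd hdlim y hy
          have hq : ∀ q : Node, ∃ x : Ordinal.{0}, x < d ∧
              (¬ (cyl B r q).Countable → x ∈ cyl B r q ∧ y < x) := by
            intro q
            by_cases hqc : (cyl B r q).Countable
            · exact ⟨0, hdlim.bot_lt, fun h1 => absurd hqc h1⟩
            · obtain ⟨x, hx, hx'⟩ := hunb _ (hcylB q) hqc y hy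
              exact ⟨x, hBd x (hcylB q hx), fun _ => ⟨hx, hx'⟩⟩
          choose xq hxq1 hxq2 using hq
          set S : Set Ordinal.{0} := {x0, y} ∪ Set.range xq ∪
            (fun q : Ordinal.{0} × Ordinal.{0} => Bd (rho L d q.1) q.2) ''
              ({x : Ordinal.{0} | x ∈ B ∧ x ≤ y} ×ˢ {x : Ordinal.{0} | x ∈ B ∧ x ≤ y}) with hS
          have hSc : S.Countable := by
            refine (Set.Countable.union (Set.Countable.union ?_ (Set.countable_range xq)) ?_)
            · exact (Set.countable_singleton y).insert x0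
            · exact ((hBe y hy).prod (hBe y hy)).image _
          obtain ⟨δ, hδ, hδ'⟩ := hcof S hSc (by
            rintro x ((hx | hx) | hx)
            · rcases hx with rfl | hx
              · exact hL.below d hd _ hx0
              · rw [Set.mem_singleton_iff.1 hx]
                exact hy
            · obtain ⟨q, rfl⟩ := hx
              exact hxq1 q
            · obtain ⟨q, _, rfl⟩ := hx
              exact hBd1 _ _)
          refine ⟨δ, fun _ => ⟨hδ, ?_, ⟨x0, hx0, hx0', ?_⟩, fun q hqc => ?_,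
            fun a ha hay e he hey => ?_⟩⟩
          · exact hδ' y (Or.inl (Or.inl (Or.inr rfl)))
          · exact hδ' x0 (Or.inl (Or.inl (Or.inl rfl)))
          · exact ⟨xq q, (hxq2 q hqc).1, (hxq2 q hqc).2, hδ' _ (Or.inl (Or.inr ⟨q, rfl⟩))⟩
          · exact hδ' _ (Or.inr ⟨(a, e), ⟨⟨ha, hay⟩, ⟨he, hey⟩⟩, rfl⟩)
        · exact ⟨0, fun h1 => absurd h1 hy⟩
      choose G hG using hstep
      -- a starting point with large `rho L d a1`
      have hex1 : ∃ a1 ∈ B, ν0 < rho L d a1 := by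
        by_contra hcon1
        push Not at hcon1
        refine hBunc (Set.Countable.mono ?_ (rho_countable hL hd hν0))
        intro x hx
        exact ⟨hBd x hx, hcon1 x hx⟩
      obtain ⟨a1, ha1, ha1'⟩ := hex1
      let seq : ℕ → Ordinal.{0} := fun n => Nat.rec (motive := fun _ => Ordinal.{0}) a1
        (fun _ x => G x) n
      have hseqs : ∀ n, seq (n + 1) = G (seq n) := fun n => rfl
      have hseqd : ∀ n, seq n < d := by
        intro n
        induction n with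
        | zero => exact hBd a1 ha1
        | succ n ih => rw [hseqs]; exact (hG _ ih).1
      have hseqlt : ∀ n, seq n < seq (n + 1) := by
        intro n
        rw [hseqs]
        exact (hG _ (hseqd n)).2.1
      have hmono : StrictMono seq := strictMono_nat_of_lt_succ hseqlt
      set g := ⨆ n, seq n with hgdef
      have hle : ∀ n, seq n ≤ g := fun n => le_ciSup Ordinal.bddAbove_of_small n
      have hgd : g < d := by
        obtain ⟨e, he, he'⟩ := hcof (Set.range seq) (Set.countable_range seq) (by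
          rintro x ⟨n, rfl⟩
          exact hseqd n)
        refine lt_of_le_of_lt (ciSup_le' (fun n => (he' _ ⟨n, rfl⟩).le)) he
      have hlt : ∀ n, seq n < g := fun n => (hseqlt n).trans_le (hle (n + 1))
      have hfind : ∀ x < g, ∃ n, x < seq n := by
        intro x hx
        exact (lt_ciSup_iff' Ordinal.bddAbove_of_small).1 hx
      have hg0 : g ≠ 0 := by
        intro h0
        have := hlt 0
        rw [h0] at this
        exact absurd this (not_lt.2 zero_le)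
      have hGGg : GG g := by
        refine ⟨hgd, ⟨hg0, fun a ha => ?_⟩, fun q hqc a ha => ?_⟩
        · obtain ⟨n, hn⟩ := hfind a ha
          obtain ⟨x, hx, hx1, hx2⟩ := (hG _ (hseqd n)).2.2.1
          exact ⟨x, hx, hn.trans hx1, hx2.trans (hlt (n + 1))⟩
        · obtain ⟨n, hn⟩ := hfind a ha
          obtain ⟨x, hx, hx1, hx2⟩ := (hG _ (hseqd n)).2.2.2.1 q hqc
          exact ⟨x, hx, hn.trans hx1, hx2.trans (hlt (n + 1))⟩
      have hbd : ∀ a ∈ B, a < g → ∀ e ∈ B, e < g → Bd (rho L d a) e < g := by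
        intro a ha hag e he heg
        obtain ⟨n1, hn1⟩ := hfind a hag
        obtain ⟨n2, hn2⟩ := hfind e heg
        have h1 := (hG _ (hseqd (max n1 n2))).2.2.2.2 a ha
          (hn1.le.trans (hmono.monotone (le_max_left n1 n2))) e he
          (hn2.le.trans (hmono.monotone (le_max_right n1 n2)))
        exact h1.trans (hlt (max n1 n2 + 1))
      obtain ⟨b, hb, hgb⟩ := hunb _ (hcylB p) hp g hgd
      have hbB := hcylB p hb
      obtain ⟨l, k, hlk⟩ := hLK g hGGg b hgb.le (hBd b hbB)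
      have hk : ∃ a ∈ B, a < g ∧ k ≤ rho L d a := by
        rcases hcase2 g hGGg b hbB hgb.le l k hlk with ⟨a, h1, h2, h3⟩ | h1
        · exact ⟨a, h1, h2, h3.le⟩
        · exact ⟨a1, ha1, hlt 0, (h1.trans ha1').le⟩
      obtain ⟨a, ha, hag, hka⟩ := hk
      have hemp : ¬ (cyl B r (⟨0, fun k => k.elim0⟩ : Node)).Countable := by
        intro hc
        refine hBunc (Set.Countable.mono ?_ hc)
        intro x hx
        exact ⟨hx, fun k => k.elim0⟩
      obtain ⟨e, he, hle1, heg⟩ := hGGg.2.2 _ hemp l hlk.1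
      have heB := hcylB _ he
      have h1 := hBd2 (rho L d a) e (rho_lt_omega1 hL hd a) (hBd e heB) g hGGg
        (hbd a ha hag e heB heg) b hb hgb.le l k hlk hka
      exact absurd h1 (not_lt.2 hle1.le)
    have claim' : ∀ p : Node, ∃ κ e : Ordinal.{0}, κ < ω_ 1 ∧ e < d ∧
        (¬ (cyl B r p).Countable → ∀ c < d,
        ∃ g, GG g ∧ c < g ∧ ∃ b ∈ cyl B r p, g ≤ b ∧ ∃ l k, LK g b l k ∧ k ≤ κ ∧ l ≤ e) := by
      intro p
      by_cases hp : (cyl B r p).Countable
      · exact ⟨0, 0, zero_lt_omega1, hdlim.bot_lt, fun h1 => absurd hp h1⟩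
      · obtain ⟨κ, hκ, e, he, h1⟩ := claim p hp
        exact ⟨κ, e, hκ, he, fun _ => h1⟩
    choose κ e hκ he hκe using claim'
    obtain ⟨κs, hκs, hκs'⟩ := countable_bound (Set.countable_range κ) (by
      rintro x ⟨p, rfl⟩
      exact hκ p)
    obtain ⟨es, hes, hes'⟩ := hcof (Set.range e) (Set.countable_range e) (by
      rintro x ⟨p, rfl⟩
      exact he p)
    have hexa : ∃ a ∈ B, es < a ∧ max κs ν0 < rho L d a := by
      by_contra hcon
      push Not at hcon
      have hc1 := hBe es hes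
      have hc2 := rho_countable hL hd (max_lt hκs hν0)
      refine hBunc ((hc1.union hc2).mono (fun x hx => ?_))
      by_cases hxe : x ≤ es
      · exact Or.inl ⟨hx, hxe⟩
      · exact Or.inr ⟨hBd x hx, hcon x hx (not_le.1 hxe)⟩
    obtain ⟨a, ha, hesa, hρ⟩ := hexa
    obtain ⟨n, hn⟩ := hFz (rho L d a) ((le_max_right κs ν0).trans hρ.le) (rho_lt_omega1 hL hd a)
    obtain ⟨m, hm1, hm2, hm3⟩ := hh a ha n
    rw [Flip_eq_cyl] at hm3
    obtain ⟨g, hg, hag, b, hb, hgb, l, k, hlk, hkκ, hle⟩ := hκe _ hm3 a (hBd a ha)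
    rw [← Flip_eq_cyl] at hb
    obtain ⟨hbB, hb1, hb2⟩ := hb
    refine ⟨a, hBA' a ha, b, hBA' b hbB, hag.trans_le hgb, m, fun k hk => (hb1 k hk).symm,
      fun h1 => hb2 h1.symm, ?_⟩
    have hla : l < a := (hle.trans_lt (hes' _ ⟨_, rfl⟩)).trans hesa
    have hkρ : k ≤ rho L d a :=
      (hkκ.trans (hκs' _ ⟨_, rfl⟩)).trans ((le_max_left κs ν0).trans hρ.le)
    rw [hlk.2.2 a hla hag, max_eq_right hkρ]
    exact hn m hm1 hm2

end Pool.Agent.TCR
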