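import Pool.Agent.TCR.Idx

/-!
# The function rho of a coherent ladder
-/

namespace Pool.Agent.TCR

open Set Cardinal Ordinal

/-- Coherent ladders below `ω₂` all of whose proper initial segments are countable. -/
structure Ladder (L : Ordinal.{0} → Set Ordinal.{0}) : Prop where
  below : ∀ β < ω_ 2, ∀ x ∈ L β, x < β
  cof : ∀ β < ω_ 2, ∀ a < β, ∃ x ∈ L β, a ≤ x
  cnt : ∀ β < ω_ 2, ∀ a < β, {x : Ordinal.{0} | x ∈ L β ∧ x < a}.Countable
  coh : ∀ β < ω_ 2, ∀ g < β, LimPt (L β) g → ∀ x, x ∈ L g ↔ x ∈ L β ∧ x < g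
  lim : ∀ β < ω_ 2, Order.IsSuccLimit β → ∀ a < β, ∃ x ∈ L β, a < x

theorem exists_ladder (h : SquareOmega1) : ∃ L : Ordinal.{0} → Set Ordinal.{0}, Ladder L := by
  obtain ⟨C, hC⟩ := h
  have hns : ∀ x : Ordinal.{0}, ¬ Order.IsSuccLimit (Order.succ x) := fun x hx =>
    absurd (hx.succ_lt (Order.lt_succ x)) (lt_irrefl _)
  have hcase : ∀ β : Ordinal.{0}, β = 0 ∨ (∃ x, β = Order.succ x) ∨ Order.IsSuccLimit β := by
    intro β
    rcases Ordinal.zero_or_succ_or_isSuccLimit β with h | ⟨x, h⟩ | h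
    · exact Or.inl h
    · exact Or.inr (Or.inl ⟨x, h.symm ▸ rfl⟩)
    · exact Or.inr (Or.inr h)
  refine ⟨fun β => {x | (Order.IsSuccLimit β ∧ x ∈ C β) ∨ β = Order.succ x}, ?_, ?_, ?_, ?_, ?_⟩
  · rintro β hβ x (⟨h1, h2⟩ | rfl)
    · exact (hC β hβ h1).1 x h2
    · exact Order.lt_succ x
  · intro β hβ a ha
    rcases hcase β with rfl | ⟨x, rfl⟩ | h1
    · exact absurd ha (not_lt.2 (zero_le))
    · exact ⟨x, Or.inr rfl, Order.lt_succ_iff.1 ha⟩
    · obtain ⟨x, hx, hx'⟩ := (hC β hβ h1).2.1 a ha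
      exact ⟨x, Or.inl ⟨h1, hx⟩, hx'.le⟩
  · intro β hβ a ha
    rcases hcase β with rfl | ⟨y, rfl⟩ | h1
    · exact absurd ha (not_lt.2 (zero_le))
    · refine (Set.countable_singleton y).mono ?_
      rintro x ⟨(⟨h2, _⟩ | h2), _⟩
      · exact absurd h2 (hns y)
      · exact (Order.succ_injective h2).symm
    · refine ((hC β hβ h1).2.2.2.1 a ha).mono ?_
      rintro x ⟨(⟨_, h2⟩ | rfl), h3⟩
      · exact ⟨h2, h3⟩
      · exact absurd h1 (hns x)
  · intro β hβ g hg hl x
    have hglim : Order.IsSuccLimit g := by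
      rcases hcase g with rfl | ⟨y, rfl⟩ | h1
      · exact absurd rfl hl.1
      · obtain ⟨z, _, h2, h3⟩ := hl.2 y (Order.lt_succ y)
        exact absurd (Order.lt_succ_iff.1 h3) (not_le.2 h2)
      · exact h1
    have hβlim : Order.IsSuccLimit β := by
      rcases hcase β with rfl | ⟨y, rfl⟩ | h1
      · exact absurd hg (not_lt.2 (zero_le))
      · obtain ⟨z, hz, h2, h3⟩ := hl.2 0 (by
          rcases hcase g with rfl | ⟨w, rfl⟩ | h4
          · exact absurd rfl hl.1
          · exact Order.lt_succ_of_le (zero_le)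
          · exact h4.bot_lt)
        obtain ⟨z', hz', h2', h3'⟩ := hl.2 z h3
        rcases hz with (⟨hz, _⟩ | hz)
        · exact absurd hz (hns y)
        · rcases hz' with (⟨hz', _⟩ | hz')
          · exact absurd hz' (hns y)
          · rw [hz] at hz'
            rw [Order.succ_injective hz'] at h2'
            exact absurd h2' (lt_irrefl _)
      · exact h1
    have hl' : LimPt (C β) g := by
      refine ⟨hl.1, fun a ha => ?_⟩
      obtain ⟨z, hz, h2⟩ := hl.2 a ha
      rcases hz with (⟨_, hz⟩ | rfl)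
      · exact ⟨z, hz, h2⟩
      · exact absurd hβlim (hns z)
    have hcoh := (hC β hβ hβlim).2.2.2.2 g hg hl'
    constructor
    · rintro (⟨_, h2⟩ | rfl)
      · rw [hcoh] at h2
        exact ⟨Or.inl ⟨hβlim, h2.1⟩, h2.2⟩
      · exact absurd hglim (hns x)
    · rintro ⟨(⟨_, h2⟩ | rfl), h3⟩
      · refine Or.inl ⟨hglim, ?_⟩
        rw [hcoh]
        exact ⟨h2, h3⟩
      · exact absurd hβlim (hns x)
  · intro β hβ hlim a ha
    obtain ⟨x, hx, hx'⟩ := (hC β hβ hlim).2.1 a ha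
    exact ⟨x, Or.inl ⟨hlim, hx⟩, hx'⟩

/-- The first element of `S` which is at least `a`. -/
noncomputable def stp (S : Set Ordinal.{0}) (a : Ordinal.{0}) : Ordinal.{0} :=
  sInf {x | x ∈ S ∧ a ≤ x}

theorem stp_mem {S : Set Ordinal.{0}} {a : Ordinal.{0}} (h : ∃ x ∈ S, a ≤ x) :
    stp S a ∈ S ∧ a ≤ stp S a := by
  have hne : {x | x ∈ S ∧ a ≤ x}.Nonempty := by
    obtain ⟨x, hx⟩ := h
    exact ⟨x, hx⟩
  exact csInf_mem hne

theorem stp_le {S : Set Ordinal.{0}} {a x : Ordinal.{0}} (hx : x ∈ S) (h : a ≤ x) :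
    stp S a ≤ x :=
  csInf_le' ⟨hx, h⟩

theorem stp_eq {S : Set Ordinal.{0}} {a y : Ordinal.{0}} (hy : y ∈ S) (hay : a ≤ y)
    (h : ∀ x ∈ S, a ≤ x → y ≤ x) : stp S a = y := by
  obtain ⟨h1, h2⟩ := stp_mem ⟨y, hy, hay⟩
  exact le_antisymm (stp_le hy hay) (h _ h1 h2)

/-- The maximal weight of the walk from `β` to `a`. -/
noncomputable def rho (L : Ordinal.{0} → Set Ordinal.{0}) :
    Ordinal.{0} → Ordinal.{0} → Ordinal.{0} :=
  WellFounded.fix (C := fun _ => Ordinal.{0} → Ordinal.{0}) Ordinal.lt_wf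
    (fun β ih a =>
      open Classical in
      if h : a < β ∧ stp (L β) a < β then max (idx (L β) a) (ih (stp (L β) a) h.2 a) else 0)

theorem rho_eq (L : Ordinal.{0} → Set Ordinal.{0}) (β a : Ordinal.{0}) :
    rho L β a =
      open Classical in
      if a < β ∧ stp (L β) a < β then max (idx (L β) a) (rho L (stp (L β) a) a) else 0 := by
  conv_lhs => rw [rho, WellFounded.fix_eq]
  by_cases h : a < β ∧ stp (L β) a < β
  · rw [dif_pos h, if_pos h]
    rfl
  · rw [dif_neg h, if_neg h]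

theorem rho_self (L : Ordinal.{0} → Set Ordinal.{0}) (a : Ordinal.{0}) : rho L a a = 0 := by
  rw [rho_eq, if_neg]
  rintro ⟨h, _⟩
  exact lt_irrefl _ h

variable {L : Ordinal.{0} → Set Ordinal.{0}}

theorem stp_lt (hL : Ladder L) {a β : Ordinal.{0}} (hβ : β < ω_ 2) (h : a < β) :
    stp (L β) a ∈ L β ∧ a ≤ stp (L β) a ∧ stp (L β) a < β := by
  obtain ⟨h1, h2⟩ := stp_mem (hL.cof β hβ a h)
  exact ⟨h1, h2, hL.below β hβ _ h1⟩

theorem rho_lt (hL : Ladder L) {a β : Ordinal.{0}} (hβ : β < ω_ 2) (h : a < β) :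
    rho L β a = max (idx (L β) a) (rho L (stp (L β) a) a) := by
  rw [rho_eq, if_pos ⟨h, (stp_lt hL hβ h).2.2⟩]

theorem rho_lt_omega1 (hL : Ladder L) {β : Ordinal.{0}} (hβ : β < ω_ 2) (a : Ordinal.{0}) :
    rho L β a < ω_ 1 := by
  induction β using WellFoundedLT.induction with
  | _ β ih =>
    by_cases h : a < β
    · rw [rho_lt hL hβ h]
      have h1 := (stp_lt hL hβ h).2.2
      exact max_lt (idx_lt_omega (hL.cnt β hβ a h)) (ih _ h1 (h1.trans hβ))
    · rw [rho_eq, if_neg (fun h' => h h'.1)]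
      exact zero_lt_omega1

/-- (R1) -/
theorem rho_countable (hL : Ladder L) {β ν : Ordinal.{0}} (hβ : β < ω_ 2) (hν : ν < ω_ 1) :
    {a : Ordinal.{0} | a < β ∧ rho L β a ≤ ν}.Countable := by
  induction β using WellFoundedLT.induction with
  | _ β ih =>
    have hsub : {a : Ordinal.{0} | a < β ∧ rho L β a ≤ ν} ⊆
        ⋃ x ∈ {x : Ordinal.{0} | x ∈ L β ∧ idx (L β) x ≤ ν},
          ({x} ∪ {a : Ordinal.{0} | a < x ∧ rho L x a ≤ ν}) := by
      rintro a ⟨h1, h2⟩
      obtain ⟨h3, h4, h5⟩ := stp_lt hL hβ h1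
      rw [rho_lt hL hβ h1] at h2
      have h6 : idx (L β) (stp (L β) a) ≤ ν := by
        rw [← idx_eq_of h4 (fun x hx hx' => ?_)]
        · exact (le_max_left _ _).trans h2
        · by_contra h7
          exact absurd hx' (not_lt.2 (stp_le hx (not_lt.1 h7)))
      refine Set.mem_biUnion (x := stp (L β) a) ⟨h3, h6⟩ ?_
      rcases eq_or_lt_of_le h4 with h7 | h7
      · exact Or.inl h7
      · exact Or.inr ⟨h7, (le_max_right _ _).trans h2⟩
    refine Set.Countable.mono hsub (Set.Countable.biUnion (idx_countable hν) ?_)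
    rintro x ⟨hx, _⟩
    have hxβ := hL.below β hβ x hx
    exact (Set.countable_singleton x).union (ih x hxβ (hxβ.trans hβ))

/-- Coherence of `rho` at limit points. -/
theorem rho_coh (hL : Ladder L) {β g a : Ordinal.{0}} (hβ : β < ω_ 2) (hg : g < β)
    (hl : LimPt (L β) g) (ha : a < g) : rho L g a = rho L β a := by
  have hcoh := hL.coh β hβ g hg hl
  rw [rho_lt hL (hg.trans hβ) ha, rho_lt hL hβ (ha.trans hg)]
  obtain ⟨h1, h2, h3⟩ := stp_lt hL (hg.trans hβ) ha
  have h4 : stp (L β) a = stp (L g) a := by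
    refine stp_eq ((hcoh _).1 h1).1 h2 (fun x hx hax => ?_)
    by_cases hxg : x < g
    · exact stp_le ((hcoh x).2 ⟨hx, hxg⟩) hax
    · exact h3.le.trans (not_lt.1 hxg)
  have h5 : idx (L g) a = idx (L β) a := by
    refine idx_congr (fun x hx => ?_)
    rw [hcoh x]
    exact ⟨fun h => h.1, fun h => ⟨h, hx.trans ha⟩⟩
  rw [h4, h5]

/-- (R2): local coherence of `rho`. -/
theorem rho_local (hL : Ladder L) {d g : Ordinal.{0}} (hd : d < ω_ 2) (hg : g < d)
    (hl : LimPt (L d) g) {β : Ordinal.{0}} (hβ : β < ω_ 2) (hgβ : g ≤ β) :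
    ∃ l < g, ∃ k < ω_ 1, ∀ a, l < a → a < g → rho L β a = max k (rho L d a) := by
  induction β using WellFoundedLT.induction with
  | _ β ih =>
    rcases eq_or_lt_of_le hgβ with rfl | hgβ'
    · refine ⟨0, pos_iff_ne_zero.2 hl.1, 0, zero_lt_omega1, fun a _ ha => ?_⟩
      rw [rho_coh hL hd hg hl ha]
      exact (max_eq_right (zero_le)).symm
    · by_cases hlim : LimPt (L β) g
      · refine ⟨0, pos_iff_ne_zero.2 hl.1, 0, zero_lt_omega1, fun a _ ha => ?_⟩
        rw [← rho_coh hL hβ hgβ' hlim ha, rho_coh hL hd hg hl ha]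
        exact (max_eq_right (zero_le)).symm
      · have h1 : ∃ l < g, ∀ x ∈ L β, x < g → x ≤ l := by
          by_contra hcon
          push Not at hcon
          refine hlim ⟨hl.1, fun a ha => ?_⟩
          obtain ⟨x, h2, h3, h4⟩ := hcon a ha
          exact ⟨x, h2, h4, h3⟩
        obtain ⟨l0, hl0, hl0'⟩ := h1
        obtain ⟨h2, h3, h4⟩ := stp_lt hL hβ hgβ'
        obtain ⟨l1, hl1, k1, hk1, h5⟩ := ih (stp (L β) g) h4 (h4.trans hβ) h3
        refine ⟨max l0 l1, max_lt hl0 hl1, max (idx (L β) g) k1,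
          max_lt (idx_lt_omega (hL.cnt β hβ g hgβ')) hk1, fun a ha hag => ?_⟩
        have hno : ∀ x ∈ L β, a ≤ x → g ≤ x := by
          intro x hx hax
          by_contra hxg
          have := hl0' x hx (not_le.1 hxg)
          exact absurd ((le_max_left l0 l1).trans_lt ha) (not_lt.2 (hax.trans this))
        have h6 : stp (L β) a = stp (L β) g :=
          stp_eq h2 (hag.le.trans h3) (fun x hx hax => stp_le hx (hno x hx hax))
        have h7 : idx (L β) a = idx (L β) g := by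
          refine idx_eq_of hag.le (fun x hx hxg => ?_)
          by_contra h8
          exact absurd hxg (not_lt.2 (hno x hx (not_lt.1 h8)))
        rw [rho_lt hL hβ (hag.trans hgβ'), h6, h7,
          h5 a ((le_max_right l0 l1).trans_lt ha) hag, max_assoc]

end Pool.Agent.TCR
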